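import Mathlib
import Pool.Agent.TWM.FinA

/-!
# Tracy-Widom limit for the Mallows longest increasing subsequence

For `n (1 - q_n) → 0` the length of the longest increasing subsequence of a Mallows permutation
has the same limit law as in the uniform case, with an explicit centering.
-/

namespace Pool.Agent.Hhelper99.Retired.TracyWidomNull

open Finset Filter Topology

/-- number of inversions of a permutation -/
def inv {n : ℕ} (π : Equiv.Perm (Fin n)) : ℕ :=
  ((univ : Finset (Fin n × Fin n)).filter (fun a => a.1 < a.2 ∧ π a.2 < π a.1)).card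

open Classical in
/-- length of a longest increasing subsequence of a permutation: the largest cardinality of a set
of positions on which the permutation is strictly increasing -/
noncomputable def lis {n : ℕ} (π : Equiv.Perm (Fin n)) : ℕ :=
  ((univ : Finset (Finset (Fin n))).filter (fun s : Finset (Fin n) =>
    StrictMonoOn π (s : Set (Fin n)))).sup card

open Classical in
/-- the probability, under the Mallows measure with parameter `q` on the permutations of `n`
points, that the longest increasing subsequence has length at most `y` -/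
noncomputable def mallowsCDF (q : ℝ) (n : ℕ) (y : ℝ) : ℝ :=
  (∑ π : Equiv.Perm (Fin n), if (lis π : ℝ) ≤ y then q ^ inv π else 0) /
    (∑ π : Equiv.Perm (Fin n), q ^ inv π)

/-- `F` is the distribution function of a probability measure on the line -/
def IsDistributionFunction (F : ℝ → ℝ) : Prop :=
  Monotone F ∧ (∀ x, ContinuousWithinAt F (Set.Ici x) x) ∧
    Tendsto F atBot (𝓝 0) ∧ Tendsto F atTop (𝓝 1)

/-- convergence in distribution of a sequence of laws, given by their distribution functions,
to the law with distribution function `F` -/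
def ConvergesInLaw (G : ℕ → ℝ → ℝ) (F : ℝ → ℝ) : Prop :=
  ∀ x, ContinuousAt F x → Tendsto (fun n => G n x) atTop (𝓝 (F x))

/-- `F` is the limit in distribution of `(L_n(1) - 2 √n) / n^{1/6}`, the Tracy-Widom law -/
def IsTracyWidom (F : ℝ → ℝ) : Prop :=
  IsDistributionFunction F ∧
    ConvergesInLaw (fun n x => mallowsCDF 1 n (2 * Real.sqrt n + x * (n : ℝ) ^ (1 / 6 : ℝ))) F

/-- the centering `2 √n artanh(√(1 - q^{n-1})) / √((n-1) log(1/q))`, and `2 √n` for `q = 1` -/
noncomputable def centering (q : ℝ) (n : ℕ) : ℝ :=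
  if q = 1 then 2 * Real.sqrt n
  else 2 * Real.sqrt n * Real.artanh (Real.sqrt (1 - q ^ (n - 1))) /
    Real.sqrt (((n : ℝ) - 1) * (-Real.log q))

open Pool.Agent.Hhelper99 in
lemma mallowsCDF_eq {q : ℝ} {n : ℕ} {y : ℝ} (hy : 0 ≤ y) :
    mallowsCDF q n y = mal q n ⌊y⌋₊ := by
  unfold mallowsCDF mal
  have h1 : ∀ π : Equiv.Perm (Fin n), inv π = invP (fun i : Fin n => i) π := by
    intro π
    unfold inv invP invSet
    congr 1
    ext a
    simp
  have h2 : ∀ π : Equiv.Perm (Fin n), lis π = lisP (fun i : Fin n => i) π := by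
    intro π
    unfold lis
    exact lisP_eq_sup π
  congr 1
  · apply Finset.sum_congr rfl
    intro π _
    rw [h1, h2]
    have h3 := Nat.le_floor_iff (n := lisP (fun i : Fin n => i) π) hy
    by_cases h : (lisP (fun i : Fin n => i) π : ℝ) ≤ y
    · rw [if_pos h, if_pos (h3.2 h), mul_one]
    · rw [if_neg h, if_neg (fun h' => h (h3.1 h')), mul_zero]
  · apply Finset.sum_congr rfl
    intro π _
    rw [h1]

open Pool.Agent.Hhelper99 in
/-- Tracy-Widom limit of the Mallows longest increasing subsequence along every sequence with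
`n (1 - q_n) → 0`. -/
theorem result {F : ℝ → ℝ} (hF : IsTracyWidom F) (q : ℕ → ℝ) (hq : ∀ n, 0 < q n ∧ q n ≤ 1)
    (hlim : Tendsto (fun n : ℕ => (n : ℝ) * (1 - q n)) atTop (𝓝 0)) :
    ConvergesInLaw
      (fun n x => mallowsCDF (q n) n (centering (q n) n + x * (n : ℝ) ^ (1 / 6 : ℝ))) F := by
  obtain ⟨⟨hmono, -, hF0, -⟩, hTW⟩ := hF
  have hq0 : ∀ n, 0 < q n := fun n => (hq n).1
  have hq1 : ∀ n, q n ≤ 1 := fun n => (hq n).2
  have hbdj : ∀ x, ContinuousAt F x → Tendsto
      (fun n : ℕ => mal 1 n ⌊2 * Real.sqrt n + x * (n : ℝ) ^ (1 / 6 : ℝ)⌋₊) atTop (𝓝 (F x)) := by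
    intro x hx
    apply (hTW x hx).congr'
    filter_upwards [threshold_nonneg (a := fun n : ℕ => Real.sqrt n)
      (Filter.Eventually.of_forall (fun n => le_rfl)) x] with n hn
    exact mallowsCDF_eq hn
  obtain ⟨hbet, hqhalf⟩ := tendsto_bet hq1 hq0 hlim
  have hal : ∀ᶠ n : ℕ in atTop, 0 < al (q n) n ∧ al (q n) n ≤ 1 := by
    filter_upwards [eventually_ge_atTop 2] with n hn
    obtain ⟨a1, a2, a3⟩ := al_facts (hq0 n) (hq1 n) hn
    exact ⟨a1, a2⟩
  intro x hx
  have hmain := Pool.Agent.TWM.main_six hmono hF0 hbdj hq0 hq1 hlim hx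
  apply hmain.congr'
  have hthr := threshold_nonneg (a := fun n : ℕ => Real.sqrt (n / al (q n) n)) (by
    filter_upwards [hal] with n ha
    apply Real.sqrt_le_sqrt
    rw [le_div_iff₀ ha.1]
    have h2 : (0 : ℝ) ≤ n := Nat.cast_nonneg n
    nlinarith [ha.2]) x
  filter_upwards [hthr, eventually_ge_atTop 2] with n hn hn2
  have hc : centering (q n) n = 2 * Real.sqrt (n / al (q n) n) := by
    unfold centering
    split_ifs with h
    · unfold al; rw [if_pos h, div_one]
    · exact center_eq (hq0 n) (lt_of_le_of_ne (hq1 n) h) hn2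
  rw [hc]
  exact (mallowsCDF_eq hn).symm

end Pool.Agent.Hhelper99.Retired.TracyWidomNull
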